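import Pool.Agent.Helper64.BKS.Stmts

/-!
# BKS, GL1: a local character of prime order is the restriction of a global one
-/

set_option autoImplicit false
set_option maxHeartbeats 800000

open NumberField
open scoped Classical

namespace BKS

open BKA (Gal Zb Pl q Over Congr)

/-- the orbit of a primitive root of unity -/
theorem gl1_index {F : Type} [Field F] {ℓ : ℕ} (hℓ : ℓ.Prime) {ζ : AlgebraicClosure F}
    (hζ : IsPrimitiveRoot ζ ℓ) (D : Subgroup (Gal F)) :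
    (MulAction.stabilizer (Gal F) ζ).relIndex D ∣ ℓ - 1 := by
  have hne : NeZero ℓ := ⟨hℓ.ne_zero⟩
  have hfact : Fact ℓ.Prime := ⟨hℓ⟩
  have hk : MulAction.stabilizer (Gal F) ζ = (hζ.autToPow F).ker := by
    ext σ
    rw [MulAction.mem_stabilizer_iff, MonoidHom.mem_ker]
    have hs := hζ.autToPow_spec F σ
    constructor
    · intro h
      have h1 : ζ ^ (hζ.autToPow F σ : ZMod ℓ).val = ζ ^ (1 : ZMod ℓ).val := by
        rw [hs, ZMod.val_one, pow_one]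
        exact h
      have h2 := hζ.pow_inj (ZMod.val_lt _) (ZMod.val_lt _) h1
      exact Units.ext (ZMod.val_injective ℓ h2)
    · intro h
      rw [h, Units.val_one, ZMod.val_one, pow_one] at hs
      exact hs.symm
  rw [hk, Subgroup.relIndex_ker]
  refine (Subgroup.card_subgroup_dvd_card _).trans ?_
  rw [Nat.card_eq_fintype_card, ZMod.card_units]

/-- a multiplier -/
theorem gl1_mult {ℓ d : ℕ} (hℓ : ℓ.Prime) (hd : d ∣ ℓ - 1) :
    ∃ m : ℕ, ∀ a : Multiplicative (ZMod ℓ), a ^ (m * d) = a := by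
  have h1 : 1 < ℓ := hℓ.one_lt
  have hd0 : d ≠ 0 := by
    rintro rfl
    rw [Nat.zero_dvd] at hd
    omega
  have hdl : d < ℓ := (Nat.le_of_dvd (by omega) hd).trans_lt (by omega)
  have hco : Nat.Coprime d ℓ := by
    rw [Nat.coprime_comm, hℓ.coprime_iff_not_dvd]
    intro h
    exact absurd (Nat.le_of_dvd (Nat.pos_of_ne_zero hd0) h) (by omega)
  obtain ⟨m, -, hm⟩ := Nat.exists_mul_mod_eq_one_of_coprime hco h1
  refine ⟨m, fun a => ?_⟩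
  have h2 : a ^ ℓ = 1 := by
    have h3 : (ℓ : ℕ) • (Multiplicative.toAdd a) = 0 := by
      rw [nsmul_eq_mul, CharP.cast_eq_zero, zero_mul]
    have h4 : Multiplicative.toAdd (a ^ ℓ) = 0 := by rw [toAdd_pow, h3]
    exact h4
  have h5 : m * d = ℓ * (d * m / ℓ) + 1 := by
    have h6 := Nat.div_add_mod (d * m) ℓ
    rw [hm] at h6
    rw [mul_comm m d]
    exact h6.symm
  rw [h5, pow_add, pow_mul, h2, one_pow, one_mul, pow_one]

theorem st_GL1 (hEXU : ST_EXU) (hPHI : ST_PHI) (hTRF : ST_TRF) : ST_GL1 := by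
  intro F _ _ Γ hΓ ℓ hℓ v 𝔓 h𝔓 φ hφ Q hQ
  have hne : NeZero ℓ := ⟨hℓ.ne_zero⟩
  have hfact : Fact ℓ.Prime := ⟨hℓ⟩
  have hneF : NeZero (ℓ : F) := ⟨by exact_mod_cast hℓ.ne_zero⟩
  obtain ⟨ζ, hζ⟩ := HasEnoughRootsOfUnity.exists_primitiveRoot (AlgebraicClosure F) ℓ
  -- the group `U`
  have hcore : ∀ X : Subgroup (Gal F), IsOpen (X : Set (Gal F)) →
      IsOpen (X.normalCore : Set (Gal F)) := by
    intro X hX
    have h1 : X.FiniteIndex := by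
      have := Subgroup.quotient_finite_of_isOpen X hX
      exact Subgroup.finiteIndex_of_finite_quotient
    exact Subgroup.isOpen_of_isClosed_of_finiteIndex _
      (X.normalCore_isClosed (Subgroup.isClosed_of_isOpen X hX))
  obtain ⟨M₀, hM₀, hφ₀⟩ := hφ
  set M := (M₀ ⊓ Γ).normalCore with hM
  have hMo : IsOpen (M : Set (Gal F)) := hcore _ (hM₀.inter hΓ)
  have hMn : M.Normal := Subgroup.normalCore_normal _
  have hMle : M ≤ M₀ ⊓ Γ := Subgroup.normalCore_le _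
  set U := (Γ ⊓ Dec 𝔓) ⊔ M with hU
  obtain ⟨φ', hφ'1, hφ'2⟩ : ∃ φ' : U →* Multiplicative (ZMod ℓ),
      (∀ (d : Gal F) (h : d ∈ Γ ⊓ Dec 𝔓) (h' : d ∈ U), φ' ⟨d, h'⟩ = φ ⟨d, h⟩) ∧
      ∀ (m : Gal F) (_ : m ∈ M) (h' : m ∈ U), φ' ⟨m, h'⟩ = 1 :=
    hEXU (Gal F) (Multiplicative (ZMod ℓ)) (Γ ⊓ Dec 𝔓) M φ (fun d h hd => hφ₀ d h (hMle hd).1)
  have hMU : M ≤ U := le_sup_right
  have hDU : Γ ⊓ Dec 𝔓 ≤ U := le_sup_left
  have hUo : IsOpen (U : Set (Gal F)) := Subgroup.isOpen_mono hMU hMo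
  have hUΓ : U ≤ Γ := sup_le inf_le_left (hMle.trans inf_le_right)
  have hφ'c : Cont φ' := ⟨M, hMo, fun σ h hσ => hφ'2 σ hσ h⟩
  set H := U ⊓ MulAction.stabilizer (Gal F) ζ with hH
  have hHΓ : H ≤ Γ := inf_le_left.trans hUΓ
  -- the multiplier
  have hidx : H.relIndex (Γ ⊓ Dec 𝔓) ∣ ℓ - 1 := by
    have h1 : H ⊓ (Γ ⊓ Dec 𝔓) = MulAction.stabilizer (Gal F) ζ ⊓ (Γ ⊓ Dec 𝔓) := by
      rw [hH, inf_comm U, inf_assoc, inf_eq_right.2 hDU]
    rw [← Subgroup.inf_relIndex_right, h1, Subgroup.inf_relIndex_right]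
    exact gl1_index hℓ hζ _
  obtain ⟨m, hm⟩ := gl1_mult hℓ hidx
  obtain ⟨ϕ, ⟨M₁, hM₁, hϕ₁⟩, hi, hii, hiii, hiv⟩ := hPHI F Γ U hUo hUΓ ℓ hℓ ζ hζ v 𝔓 h𝔓 hDU φ'
    hφ'c m Q hQ
  -- finite index
  have hstab : IsOpen ((MulAction.stabilizer (Gal F) ζ : Subgroup (Gal F)) : Set (Gal F)) :=
    stabilizer_isOpen_of_isIntegral ζ
  have hHo : IsOpen (H : Set (Gal F)) := hUo.inter hstab
  have hHf : H.FiniteIndex := by
    have := Subgroup.quotient_finite_of_isOpen H hHo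
    exact Subgroup.finiteIndex_of_finite_quotient
  set H' : Subgroup Γ := H.subgroupOf Γ with hH'
  have hH'f : H'.FiniteIndex := by
    rw [hH']
    infer_instance
  let ϕ' : H' →* Multiplicative (ZMod ℓ) :=
    ϕ.comp (Subgroup.subgroupOfEquivOfLe hHΓ).toMonoidHom
  have hϕ' : ∀ (σ : Γ) (h : σ ∈ H') (h' : (σ : Gal F) ∈ H), ϕ' ⟨σ, h⟩ = ϕ ⟨σ, h'⟩ :=
    fun σ h h' => rfl
  refine ⟨MonoidHom.transfer ϕ', ?_, ?_, ?_, ?_⟩
  · refine ⟨M₁.normalCore, hcore _ hM₁, fun σ h hσ => ?_⟩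
    refine hTRF.2 Γ (Multiplicative (ZMod ℓ)) H' (M₁.normalCore.subgroupOf Γ) ϕ' ?_ ⟨σ, h⟩
      (Subgroup.mem_subgroupOf.2 hσ)
    intro g δ hδ hh
    have h1 : (g : Gal F)⁻¹ * (δ : Gal F) * (g : Gal F) ∈ H := Subgroup.mem_subgroupOf.1 hh
    rw [hϕ' _ hh h1]
    refine hϕ₁ _ h1 (Subgroup.normalCore_le _ ?_)
    have h2 := (Subgroup.normalCore_normal M₁).conj_mem (δ : Gal F)
      (Subgroup.mem_subgroupOf.1 hδ) (g : Gal F)⁻¹
    rw [inv_inv] at h2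
    exact h2
  · intro σ h h'
    refine hTRF.1 Γ (Multiplicative (ZMod ℓ)) H' ((Γ ⊓ Dec 𝔓).subgroupOf Γ) ϕ'
      (φ.comp (Subgroup.subgroupOfEquivOfLe (inf_le_left : Γ ⊓ Dec 𝔓 ≤ Γ)).toMonoidHom) m ?_ ?_ ?_
      ⟨σ, h⟩ (Subgroup.mem_subgroupOf.2 h')
    · intro a
      rw [hH', Subgroup.relIndex_subgroupOf inf_le_left]
      exact hm a
    · intro δ hD hHδ
      have h1 : (δ : Gal F) ∈ Γ ⊓ Dec 𝔓 := Subgroup.mem_subgroupOf.1 hD
      have h2 : (δ : Gal F) ∈ H := Subgroup.mem_subgroupOf.1 hHδ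
      rw [hϕ' _ hHδ h2, hi _ h2 h2.1 h1.2, hφ'1 _ h1 h2.1]
      rfl
    · intro g hg δ hδ hh
      have h1 : (g : Gal F)⁻¹ * (δ : Gal F) * (g : Gal F) ∈ H := Subgroup.mem_subgroupOf.1 hh
      rw [hϕ' _ hh h1]
      refine hii (g : Gal F) g.2 ?_ (δ : Gal F) (Subgroup.mem_subgroupOf.1 hδ).2 h1
      intro d hd x hx hgx
      refine hg ⟨d, hd.1⟩ (Subgroup.mem_subgroupOf.2 hd) ⟨x, hHΓ hx⟩
        (Subgroup.mem_subgroupOf.2 hx) (Subtype.ext hgx)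
  · intro 𝔔 h𝔔 σ h hσ
    refine hTRF.2 Γ (Multiplicative (ZMod ℓ)) H' ((Dec 𝔔).subgroupOf Γ) ϕ' ?_ ⟨σ, h⟩
      (Subgroup.mem_subgroupOf.2 hσ)
    intro g δ hδ hh
    have h1 : (g : Gal F)⁻¹ * (δ : Gal F) * (g : Gal F) ∈ H := Subgroup.mem_subgroupOf.1 hh
    rw [hϕ' _ hh h1]
    exact hiii 𝔔 h𝔔 (g : Gal F) g.2 (δ : Gal F) (Subgroup.mem_subgroupOf.1 hδ) h1
  · intro c h hc
    refine hTRF.2 Γ (Multiplicative (ZMod ℓ)) H' (Subgroup.zpowers ⟨c, h⟩) ϕ' ?_ ⟨c, h⟩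
      (Subgroup.mem_zpowers _)
    intro g δ hδ hh
    have h1 : (g : Gal F)⁻¹ * (δ : Gal F) * (g : Gal F) ∈ H := Subgroup.mem_subgroupOf.1 hh
    rw [hϕ' _ hh h1]
    obtain ⟨k, hk⟩ := Subgroup.mem_zpowers_iff.1 hδ
    have hcc : (⟨c, h⟩ : Γ) * ⟨c, h⟩ = 1 := Subtype.ext hc.sq
    rcases Int.even_or_odd' k with ⟨j, rfl | rfl⟩
    · have h2 : δ = 1 := by
        rw [← hk, zpow_mul, zpow_two, hcc, one_zpow]
      have h3 : (⟨(g : Gal F)⁻¹ * (δ : Gal F) * (g : Gal F), h1⟩ : H) = 1 := by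
        apply Subtype.ext
        show (g : Gal F)⁻¹ * (δ : Gal F) * (g : Gal F) = 1
        rw [h2]
        simp
      exact (congrArg ϕ h3).trans (map_one ϕ)
    · have h2 : δ = ⟨c, h⟩ := by
        rw [← hk, zpow_add, zpow_mul, zpow_two, hcc, one_zpow, one_mul, zpow_one]
      have h3 : (δ : Gal F) = c := by rw [h2]
      have h4 : CC ((g : Gal F)⁻¹ * (δ : Gal F) * (g : Gal F)) := by
        rw [h3]
        exact hc.conj _
      exact hiv _ h1 h4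

end BKS
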